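import Pool.Agent.Y495.KP.Gl

/-!
# Equivariant contractibility for all representations of compact groups
-/

set_option autoImplicit false

namespace Pool.Agent.Y495.KP

open Pool.Agent.Helper110.Kuiper hiding integrable_cont avg integrable_prj avg_mem avg_apply avg_comm avg_pos exists_fd
open Set
open scoped ENNReal

noncomputable section

section PeterWeyl

open MeasureTheory InnerProductSpace

variable {G : Type*} [TopologicalSpace G] [Group G] [IsTopologicalGroup G] [CompactSpace G]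
  [MeasurableSpace G] [BorelSpace G]
variable {E : Type*} [NormedAddCommGroup E] [InnerProductSpace ℂ E] [CompleteSpace E]

lemma integrable_cont (μ : Measure G) [μ.IsHaarMeasure] [IsProbabilityMeasure μ]
    {F : Type*} [NormedAddCommGroup F] {P : G → F} (hP : Continuous P) : Integrable P μ :=
  hP.integrable_of_hasCompactSupport (HasCompactSupport.of_compactSpace P)

/-- The averaged operator. -/
def avg (μ : Measure G) (π : G →* (E ≃ₗᵢ[ℂ] E)) (v : E) : E →L[ℂ] E := ∫ g, prj (π g v) ∂μ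

section

variable (μ : Measure G) [μ.IsHaarMeasure] [IsProbabilityMeasure μ]
  (π : G →* (E ≃ₗᵢ[ℂ] E)) (hπ : ∀ v, Continuous fun g => π g v) (v : E)

include hπ

lemma integrable_prj : Integrable (fun g => prj (π g v)) μ :=
  integrable_cont μ (prj_continuous.comp (hπ v))

lemma avg_mem : avg μ π v ∈ cptSa E := by
  unfold avg
  have h1 := integrable_prj μ π hπ v
  have h2 : ∀ᵐ g ∂μ, prj (π g v) ∈ cptSa E := Filter.Eventually.of_forall fun g => prj_mem (π g v)
  have h3 := convex_cptSa (E := E)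
  have h4 := closed_cptSa (E := E)
  exact h3.integral_mem h4 h2 h1

lemma avg_apply (x : E) : avg μ π v x = ∫ g, inner ℂ (π g v) x • π g v ∂μ := by
  rw [avg, ContinuousLinearMap.integral_apply (integrable_prj μ π hπ v)]
  rfl

lemma avg_comm (h : G) (x : E) : avg μ π v (π h x) = π h (avg μ π v x) := by
  rw [avg_apply μ π hπ v, avg_apply μ π hπ v]
  have hc : Continuous fun g => inner ℂ (π g v) x • π g v :=
    ((hπ v).inner continuous_const).smul (hπ v)
  have h1 : π h (∫ g, inner ℂ (π g v) x • π g v ∂μ)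
      = ∫ g, π h (inner ℂ (π g v) x • π g v) ∂μ :=
    ((π h).toContinuousLinearEquiv.toContinuousLinearMap.integral_comp_comm
      (integrable_cont μ hc)).symm
  rw [h1]
  rw [← integral_mul_left_eq_self (fun g => inner ℂ (π g v) (π h x) • π g v) h]
  refine integral_congr_ae (Filter.Eventually.of_forall fun g => ?_)
  show inner ℂ (π (h * g) v) (π h x) • π (h * g) v = π h (inner ℂ (π g v) x • π g v)
  rw [map_mul, map_smul]
  show inner ℂ (π h (π g v)) (π h x) • π h (π g v) = _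
  rw [LinearIsometryEquiv.inner_map_map]

lemma avg_pos (hv : v ≠ 0) : avg μ π v v ≠ 0 := by
  intro h0
  have h1 : inner ℂ v (avg μ π v v) = 0 := by rw [h0, inner_zero_right]
  rw [avg_apply μ π hπ v] at h1
  have hc : Continuous fun g => inner ℂ (π g v) v • π g v :=
    ((hπ v).inner continuous_const).smul (hπ v)
  have h2 : inner ℂ v (∫ g, inner ℂ (π g v) v • π g v ∂μ)
      = ∫ g, inner ℂ v (inner ℂ (π g v) v • π g v) ∂μ :=
    ((innerSL ℂ v).integral_comp_comm (integrable_cont μ hc)).symm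
  rw [h2] at h1
  have h3 : ∀ g, inner ℂ v (inner ℂ (π g v) v • π g v) = ((‖inner ℂ (π g v) v‖ ^ 2 : ℝ) : ℂ) := by
    intro g
    rw [inner_smul_right, ← inner_conj_symm v (π g v), RCLike.mul_conj]
    norm_cast
  simp_rw [h3] at h1
  rw [integral_complex_ofReal] at h1
  have h4 : ∫ g, ‖inner ℂ (π g v) v‖ ^ 2 ∂μ = 0 := by exact_mod_cast h1
  have hc2 : Continuous fun g => ‖inner ℂ (π g v) v‖ ^ 2 :=
    (((hπ v).inner continuous_const).norm).pow 2
  have h5 : 0 < ∫ g, ‖inner ℂ (π g v) v‖ ^ 2 ∂μ := by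
    refine hc2.integral_pos_of_hasCompactSupport_nonneg_nonzero
      (HasCompactSupport.of_compactSpace _) (fun g => by positivity) (x := 1) ?_
    rw [map_one]
    show ‖inner ℂ v v‖ ^ 2 ≠ 0
    rw [inner_self_eq_norm_sq_to_K]
    have : ‖v‖ ≠ 0 := norm_ne_zero_iff.2 hv
    simp [this]
  exact h5.ne' h4

end

/-- A strongly continuous unitary representation of a compact group has many finite
dimensional invariant subspaces. -/
theorem exists_fd (μ : Measure G) [μ.IsHaarMeasure] [IsProbabilityMeasure μ]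
    (π : G →* (E ≃ₗᵢ[ℂ] E)) (hπ : ∀ v, Continuous fun g => π g v) (v : E) (hv : v ≠ 0) :
    ∃ V : Submodule ℂ E, FiniteDimensional ℂ V ∧ (∀ g, ∀ x ∈ V, π g x ∈ V) ∧
      ∃ x ∈ V, inner ℂ x v ≠ 0 := by
  have hT := avg_mem μ π hπ v
  have hsym : (avg μ π v : E →ₗ[ℂ] E).IsSymmetric :=
    ContinuousLinearMap.isSelfAdjoint_iff_isSymmetric.1 hT.2
  by_contra hcon
  have hall : ∀ c : ℂ, c ≠ 0 → ∀ x ∈ Module.End.eigenspace (avg μ π v : E →ₗ[ℂ] E) c,
      inner ℂ x v = 0 := by
    intro c hc x hx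
    by_contra hne
    refine hcon ⟨Module.End.eigenspace (avg μ π v : E →ₗ[ℂ] E) c,
      ContinuousLinearMap.finite_dimensional_eigenspace hT.1 c hc, ?_, x, hx, hne⟩
    intro g y hy
    rw [Module.End.mem_eigenspace_iff] at hy ⊢
    show avg μ π v (π g y) = c • π g y
    rw [avg_comm μ π hπ v]
    have hy' : avg μ π v y = c • y := hy
    rw [hy', map_smul]
  have h0 : avg μ π v v ∈ (⨆ c, Module.End.eigenspace (avg μ π v : E →ₗ[ℂ] E) c)ᗮ := by
    rw [← Submodule.iInf_orthogonal, Submodule.mem_iInf]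
    intro c
    rw [Submodule.mem_orthogonal]
    intro x hx
    have h1 : inner ℂ x (avg μ π v v) = inner ℂ (avg μ π v x) v := (hsym x v).symm
    have h2 : avg μ π v x = c • x := Module.End.mem_eigenspace_iff.1 hx
    rw [h1, h2, inner_smul_left]
    by_cases hc : c = 0
    · rw [hc]; simp
    · rw [hall c hc x hx, mul_zero]
  rw [ContinuousLinearMap.orthogonalComplement_iSup_eigenspaces_eq_bot hT.1 hsym,
    Submodule.mem_bot] at h0
  exact avg_pos μ π hπ v hv h0


/-- every strongly continuous representation of a compact group -/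
theorem exists_fd' {G : Type} [TopologicalSpace G] [Group G] [IsTopologicalGroup G]
    [CompactSpace G] (π : G →* (E ≃ₗᵢ[ℂ] E)) (hπ : ∀ v, Continuous fun g => π g v) (v : E)
    (hv : v ≠ 0) :
    ∃ V : Submodule ℂ E, FiniteDimensional ℂ V ∧ (∀ g, ∀ x ∈ V, π g x ∈ V) ∧
      ∃ x ∈ V, inner ℂ x v ≠ 0 := by
  letI : MeasurableSpace G := borel G
  haveI : BorelSpace G := ⟨rfl⟩
  let K : TopologicalSpace.PositiveCompacts G := ⊤
  haveI : IsProbabilityMeasure (Measure.haarMeasure K) := ⟨by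
    have h := Measure.haarMeasure_self (K₀ := K)
    exact h⟩
  exact exists_fd (Measure.haarMeasure K) π hπ v hv

end PeterWeyl

section Rep

variable {Γ : Type} [Group Γ] {E : Type} [NormedAddCommGroup E] [InnerProductSpace ℂ E]
  [CompleteSpace E] [SecondCountableTopology E]

theorem rep_main (π : Γ →* (E ≃ₗᵢ[ℂ] E))
    (hd : ∀ v : E, v ≠ 0 → ∃ V : Submodule ℂ E, FiniteDimensional ℂ V ∧
      (∀ g, ∀ x ∈ V, π g x ∈ V) ∧ ∃ x ∈ V, inner ℂ x v ≠ 0) :
    ∃ P : Γ → (lp (fun _ : ℕ => E) 2 →L[ℂ] lp (fun _ : ℕ => E) 2),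
      (∀ g x n, (P g x) n = π g (x n)) ∧ (∀ g, P g ∈ unitary _) ∧
      ∀ c : ℝ≥0∞, 1 ≤ c → EqContr (fun g T => P g * T * star (P g)) (Bd _ c) := by
  obtain ⟨h, hc, h0, h1, he⟩ := kuiper_rep π (fun v hv => by
    obtain ⟨V, h1, h2, h3⟩ := hd v hv
    exact ⟨V, ⟨h1, h2⟩, h3⟩)
  refine ⟨fun g => amp (π g), fun g x n => rfl, fun g => amp_mem _, fun c hcc => ?_⟩
  exact contr_gl (fun g => ampU (π g)) h hc h0 h1 he c hcc

end Rep

section Zero

variable (H : Type) [NormedAddCommGroup H] [InnerProductSpace ℂ H] [CompleteSpace H]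

theorem Bd_one : Bd (H →L[ℂ] H) 1 = {u | u ∈ unitary (H →L[ℂ] H)} := by
  ext a
  constructor
  · rintro ⟨b, hab, hba, h1, h2⟩
    have h1' : ‖a‖ ≤ 1 := by
      rw [← ofReal_norm] at h1
      exact ENNReal.ofReal_le_one.1 h1
    have h2' : ‖b‖ ≤ 1 := by
      rw [← ofReal_norm] at h2
      exact ENNReal.ofReal_le_one.1 h2
    have hn : ∀ x, ‖a x‖ = ‖x‖ := by
      intro x
      apply le_antisymm
      · calc ‖a x‖ ≤ ‖a‖ * ‖x‖ := a.le_opNorm x
          _ ≤ 1 * ‖x‖ := mul_le_mul_of_nonneg_right h1' (norm_nonneg _)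
          _ = ‖x‖ := one_mul _
      · calc ‖x‖ = ‖(b * a) x‖ := by rw [hba]; rfl
          _ = ‖b (a x)‖ := rfl
          _ ≤ ‖b‖ * ‖a x‖ := b.le_opNorm _
          _ ≤ 1 * ‖a x‖ := mul_le_mul_of_nonneg_right h2' (norm_nonneg _)
          _ = ‖a x‖ := one_mul _
    have h3 : star a * a = 1 := (ContinuousLinearMap.norm_map_iff_adjoint_comp_self a).1 hn
    have h4 : star a = b := left_inv_eq_right_inv h3 hab
    show a ∈ unitary (H →L[ℂ] H)
    rw [Unitary.mem_iff]
    exact ⟨h3, by rw [h4, hab]⟩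
  · intro ha
    have ha' : a ∈ unitary (H →L[ℂ] H) := ha
    have hn : ∀ u ∈ unitary (H →L[ℂ] H), ‖u‖ₑ ≤ 1 := by
      intro u hu
      rw [← ofReal_norm]
      apply ENNReal.ofReal_le_one.2
      rcases subsingleton_or_nontrivial (H →L[ℂ] H) with hA | hA
      · rw [Subsingleton.elim u 0, norm_zero]
        exact zero_le_one
      · exact (CStarRing.norm_of_mem_unitary hu).le
    exact ⟨star a, Unitary.mul_star_self_of_mem ha', Unitary.star_mul_self_of_mem ha',
      hn a ha', hn _ (Unitary.star_mem ha')⟩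

theorem Bd_top : Bd (H →L[ℂ] H) ⊤ = {u | IsUnit u} := by
  ext a
  constructor
  · rintro ⟨b, hab, hba, _⟩
    exact isUnit_iff_exists.2 ⟨b, hab, hba⟩
  · intro ha
    obtain ⟨b, hab, hba⟩ := isUnit_iff_exists.1 ha
    exact ⟨b, hab, hba, le_top, le_top⟩

end Zero

end

end Pool.Agent.Y495.KP
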