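import Pool.Agent.Helper110.Kuiper

/-!
# From the unitary group to the invertible elements with bounds, equivariantly
-/

set_option autoImplicit false

namespace Pool.Agent.Y495.KP

open Pool.Agent.Helper110.Kuiper Set
open scoped ENNReal

noncomputable section

/-- The invertible elements `a` with `‖a‖ ≤ c` and `‖a⁻¹‖ ≤ c`. -/
def Bd (A : Type) [NormedRing A] (c : ℝ≥0∞) : Set A :=
  {a | ∃ b, a * b = 1 ∧ b * a = 1 ∧ ‖a‖ₑ ≤ c ∧ ‖b‖ₑ ≤ c}

/-- A subset `S` with maps `ρ g` (an action of the group `Γ`) is equivariantly contractible to a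
point, the point being fixed during the contraction. -/
def EqContr {Γ A : Type} [TopologicalSpace A] (ρ : Γ → A → A) (S : Set A) : Prop :=
  (∀ g, MapsTo (ρ g) S S) ∧ ∃ y₀ ∈ S, (∀ g, ρ g y₀ = y₀) ∧ ∃ h : ℝ → A → A,
    ContinuousOn (fun p : ℝ × A => h p.1 p.2) (Icc 0 1 ×ˢ S) ∧
    (∀ t ∈ Icc (0 : ℝ) 1, MapsTo (h t) S S) ∧ (∀ y ∈ S, h 0 y = y) ∧ (∀ y ∈ S, h 1 y = y₀) ∧
    (∀ t ∈ Icc (0 : ℝ) 1, h t y₀ = y₀) ∧
    ∀ t ∈ Icc (0 : ℝ) 1, ∀ y ∈ S, ∀ g, h t (ρ g y) = ρ g (h t y)

section Path

variable {A : Type} [CStarAlgebra A]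

lemma star_pol_mul {a : A} (ha : IsUnit a) : star (pol a) * a = cfc Real.sqrt (star a * a) := by
  have hs := spec_pos ha
  have hc : ContinuousOn isq (spectrum ℝ (star a * a)) := isq_cont.mono hs
  have hsa : IsSelfAdjoint (star a * a) := IsSelfAdjoint.star_mul_self a
  have hst : star (cfc isq (star a * a)) = cfc isq (star a * a) :=
    (cfc_predicate isq (star a * a) : IsSelfAdjoint _)
  have h1 : star (pol a) * a = cfc isq (star a * a) * (star a * a) := by
    unfold pol
    rw [star_mul, hst, mul_assoc]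
  have h2 : cfc isq (star a * a) * (star a * a) = cfc (fun x => isq x * x) (star a * a) := by
    rw [cfc_mul isq (fun x => x) (star a * a) hc continuousOn_id, cfc_id' ℝ (star a * a)]
  rw [h1, h2]
  apply cfc_congr
  intro x hx
  have hx' : 0 < Real.sqrt x := Real.sqrt_pos.2 (hs hx)
  have hx2 : x = Real.sqrt x * Real.sqrt x := (Real.mul_self_sqrt (le_of_lt (hs hx))).symm
  show (Real.sqrt x)⁻¹ * x = Real.sqrt x
  conv_lhs => rw [hx2]
  rw [Real.sqrt_mul_self hx'.le]
  field_simp

/-- the straight path from `a` to its unitary part -/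
def path (t : ℝ) (a : A) : A := (1 - t) • a + t • pol a

lemma path_eq {a : A} (ha : IsUnit a) (t : ℝ) :
    path t a = pol a * cfc (fun x => (1 - t) * Real.sqrt x + t) (star a * a) := by
  have hsa : IsSelfAdjoint (star a * a) := IsSelfAdjoint.star_mul_self a
  have hsq : ContinuousOn Real.sqrt (spectrum ℝ (star a * a)) := Real.continuous_sqrt.continuousOn
  have h1 : cfc (fun x => (1 - t) * Real.sqrt x + t) (star a * a) =
      (1 - t) • cfc Real.sqrt (star a * a) + t • (1 : A) := by
    rw [cfc_add (star a * a) (fun x => (1 - t) * Real.sqrt x) (fun _ => t)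
      (continuousOn_const.mul hsq) continuousOn_const, cfc_const_mul (1 - t) Real.sqrt
      (star a * a) hsq, cfc_const t (star a * a), Algebra.algebraMap_eq_smul_one]
  rw [h1, ← star_pol_mul ha, mul_add, mul_smul_comm, mul_smul_comm, mul_one, ← mul_assoc,
    Unitary.mul_star_self_of_mem (pol_mem ha), one_mul]
  rfl

lemma path_inv {a b : A} (hab : a * b = 1) (hba : b * a = 1) {t : ℝ} (ht : t ∈ Icc (0 : ℝ) 1) :
    ∃ T : A, path t a * T = 1 ∧ T * path t a = 1 ∧ ‖path t a‖ ≤ max ‖a‖ 1 ∧ ‖T‖ ≤ max ‖b‖ 1 := by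
  have ha : IsUnit a := isUnit_iff_exists.2 ⟨b, hab, hba⟩
  rcases subsingleton_or_nontrivial A with hA | hA
  · refine ⟨0, Subsingleton.elim _ _, Subsingleton.elim _ _, ?_, ?_⟩
    · rw [Subsingleton.elim (path t a) 0, norm_zero]
      positivity
    · rw [norm_zero]
      positivity
  have hsa : IsSelfAdjoint (star a * a) := IsSelfAdjoint.star_mul_self a
  have hs := spec_pos ha
  set M := max ‖b‖ 1 with hM
  have hM1 : 1 ≤ M := le_max_right _ _
  have hMb : ‖b‖ ≤ M := le_max_left _ _
  set f : ℝ → ℝ := fun x => (1 - t) * Real.sqrt x + t with hf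
  -- lower bound on the spectrum
  have hlow : ∀ x ∈ spectrum ℝ (star a * a), 1 ≤ M * f x := by
    intro x hx
    have hx0 : 0 < x := hs hx
    let s : Aˣ := ⟨star a * a, b * star b, by
      have h1 : star a * a * (b * star b) = star a * (a * b) * star b := by
        simp only [mul_assoc]
      rw [h1, hab, mul_one, ← star_mul, hba, star_one], by
      have h1 : b * star b * (star a * a) = b * (star b * star a) * a := by
        simp only [mul_assoc]
      rw [h1, ← star_mul, hab, star_one, mul_one, hba]⟩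
    have h2 : (((Units.mk0 x hx0.ne')⁻¹ : ℝˣ) : ℝ) ∈ spectrum ℝ ((s⁻¹ : Aˣ) : A) := by
      rw [← spectrum.inv_mem_iff]
      exact hx
    have h3 := spectrum.norm_le_norm_of_mem h2
    have h4 : ‖((s⁻¹ : Aˣ) : A)‖ = ‖b‖ * ‖b‖ := by
      show ‖b * star b‖ = _
      exact CStarRing.norm_self_mul_star
    rw [h4, Units.val_inv_eq_inv_val, Units.val_mk0, norm_inv, Real.norm_eq_abs,
      abs_of_pos hx0] at h3
    have h5 : x⁻¹ ≤ M * M := h3.trans (mul_le_mul hMb hMb (norm_nonneg _) (by linarith))
    have h6 : 1 ≤ (M * M) * x := by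
      rw [inv_le_iff_one_le_mul₀ hx0] at h5
      exact h5
    have h7 : 1 ≤ M * Real.sqrt x := by
      by_contra h
      rw [not_le] at h
      have h8 : 0 ≤ M * Real.sqrt x := by positivity
      have h9 : (M * Real.sqrt x) * (M * Real.sqrt x) < 1 := by nlinarith
      have h10 : (M * Real.sqrt x) * (M * Real.sqrt x) = (M * M) * x := by
        rw [mul_mul_mul_comm, Real.mul_self_sqrt hx0.le]
      linarith
    show 1 ≤ M * ((1 - t) * Real.sqrt x + t)
    have h11 : M * ((1 - t) * Real.sqrt x + t) = (1 - t) * (M * Real.sqrt x) + t * M := by ring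
    rw [h11]
    nlinarith [ht.1, ht.2]
  have hfpos : ∀ x ∈ spectrum ℝ (star a * a), 0 < f x := by
    intro x hx
    have h1 := hlow x hx
    by_contra h
    rw [not_lt] at h
    nlinarith
  have hfc : ContinuousOn f (spectrum ℝ (star a * a)) := by
    apply Continuous.continuousOn
    exact (continuous_const.mul Real.continuous_sqrt).add continuous_const
  have hgc : ContinuousOn (fun x => (f x)⁻¹) (spectrum ℝ (star a * a)) :=
    hfc.inv₀ (fun x hx => (hfpos x hx).ne')
  have hfg : cfc f (star a * a) * cfc (fun x => (f x)⁻¹) (star a * a) = 1 := by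
    rw [← cfc_mul f (fun x => (f x)⁻¹) (star a * a) hfc hgc, cfc_congr (g := fun _ => 1),
      cfc_const_one ℝ (star a * a)]
    intro x hx
    exact mul_inv_cancel₀ (hfpos x hx).ne'
  have hgf : cfc (fun x => (f x)⁻¹) (star a * a) * cfc f (star a * a) = 1 := by
    rw [← cfc_mul (fun x => (f x)⁻¹) f (star a * a) hgc hfc, cfc_congr (g := fun _ => 1),
      cfc_const_one ℝ (star a * a)]
    intro x hx
    exact inv_mul_cancel₀ (hfpos x hx).ne'
  have hu := pol_mem ha
  have hun : ‖pol a‖ = 1 := CStarRing.norm_of_mem_unitary hu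
  have hun' : ‖star (pol a)‖ = 1 := by rw [norm_star, hun]
  refine ⟨cfc (fun x => (f x)⁻¹) (star a * a) * star (pol a), ?_, ?_, ?_, ?_⟩
  · rw [path_eq ha]
    calc pol a * cfc f (star a * a) * (cfc (fun x => (f x)⁻¹) (star a * a) * star (pol a))
        = pol a * (cfc f (star a * a) * cfc (fun x => (f x)⁻¹) (star a * a)) * star (pol a) := by
          simp only [mul_assoc]
      _ = 1 := by rw [hfg, mul_one, Unitary.mul_star_self_of_mem hu]
  · rw [path_eq ha]
    calc cfc (fun x => (f x)⁻¹) (star a * a) * star (pol a) * (pol a * cfc f (star a * a))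
        = cfc (fun x => (f x)⁻¹) (star a * a) * (star (pol a) * pol a) * cfc f (star a * a) := by
          simp only [mul_assoc]
      _ = 1 := by rw [Unitary.star_mul_self_of_mem hu, mul_one, hgf]
  · unfold path
    calc ‖(1 - t) • a + t • pol a‖ ≤ ‖(1 - t) • a‖ + ‖t • pol a‖ := norm_add_le _ _
      _ = (1 - t) * ‖a‖ + t * 1 := by
          rw [norm_smul, norm_smul, Real.norm_eq_abs, Real.norm_eq_abs,
            abs_of_nonneg (by linarith [ht.2]), abs_of_nonneg ht.1, hun]
      _ ≤ (1 - t) * max ‖a‖ 1 + t * max ‖a‖ 1 := by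
          have h1 : ‖a‖ ≤ max ‖a‖ 1 := le_max_left _ _
          have h2 : 1 ≤ max ‖a‖ 1 := le_max_right _ _
          nlinarith [ht.1, ht.2]
      _ = max ‖a‖ 1 := by ring
  · refine (norm_mul_le _ _).trans ?_
    rw [hun', mul_one]
    apply norm_cfc_le (by linarith)
    intro x hx
    rw [norm_inv, Real.norm_eq_abs, abs_of_pos (hfpos x hx), inv_le_iff_one_le_mul₀ (hfpos x hx)]
    exact hlow x hx

end Path

section Main

variable {A : Type} [CStarAlgebra A]

/-- the unitary part as a unitary element -/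
def P (a : A) : unitary A := by
  classical
  exact if ha : IsUnit a then ⟨pol a, pol_mem ha⟩ else 1

lemma P_coe {a : A} (ha : IsUnit a) : ((P a : unitary A) : A) = pol a := by
  unfold P
  rw [dif_pos ha]

lemma P_cont : ContinuousOn (P : A → unitary A) {a | IsUnit a} := by
  rw [Topology.IsInducing.subtypeVal.continuousOn_iff]
  exact pol_continuousOn.congr fun a ha => P_coe ha

lemma enorm_le_of {a b : A} {c : ℝ≥0∞} (hc : 1 ≤ c) (h : ‖a‖ ≤ max ‖b‖ 1) (hb : ‖b‖ₑ ≤ c) :
    ‖a‖ₑ ≤ c := by
  rw [← ofReal_norm] at hb ⊢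
  refine (ENNReal.ofReal_le_ofReal h).trans ?_
  rw [ENNReal.ofReal_max, ENNReal.ofReal_one]
  exact max_le hb hc

theorem contr_gl {Γ : Type} (v : Γ → unitary A) (h : ℝ × unitary A → unitary A)
    (hcont : Continuous h) (h0 : ∀ u, h (0, u) = u) (h1 : ∀ u, h (1, u) = 1)
    (he : ∀ t g u, h (t, v g * u * (v g)⁻¹) = v g * h (t, u) * (v g)⁻¹) (c : ℝ≥0∞) (hc : 1 ≤ c) :
    EqContr (fun g a => (v g : A) * a * star (v g : A)) (Bd A c) := by
  have hunit : ∀ a ∈ Bd A c, IsUnit a := fun a ha => by
    obtain ⟨b, hab, hba, _⟩ := ha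
    exact isUnit_iff_exists.2 ⟨b, hab, hba⟩
  -- the normalised homotopy
  let h' : ℝ × unitary A → unitary A := fun p => (h (p.1, 1))⁻¹ * h p
  have h'cont : Continuous h' :=
    ((hcont.comp (continuous_fst.prodMk continuous_const)).inv).mul hcont
  have h'0 : ∀ u, h' (0, u) = u := fun u => by
    show (h (0, 1))⁻¹ * h (0, u) = u
    rw [h0, h0, inv_one, one_mul]
  have h'1 : ∀ u, h' (1, u) = 1 := fun u => by
    show (h (1, 1))⁻¹ * h (1, u) = 1
    rw [h1, h1, inv_one, one_mul]
  have h'one : ∀ t, h' (t, 1) = 1 := fun t => inv_mul_cancel _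
  have h'e : ∀ t g u, h' (t, v g * u * (v g)⁻¹) = v g * h' (t, u) * (v g)⁻¹ := fun t g u => by
    show (h (t, 1))⁻¹ * h (t, v g * u * (v g)⁻¹) = v g * ((h (t, 1))⁻¹ * h (t, u)) * (v g)⁻¹
    have h2 := he t g 1
    rw [mul_one, mul_inv_cancel] at h2
    rw [he]
    conv_lhs => rw [h2]
    group
  have hvs : ∀ g, star (v g : A) * (v g : A) = 1 := fun g => Unitary.coe_star_mul_self (v g)
  have hvs' : ∀ g, (v g : A) * star (v g : A) = 1 := fun g => Unitary.coe_mul_star_self (v g)
  have hnv : ∀ g (a : A), ‖(v g : A) * a * star (v g : A)‖ ≤ ‖a‖ := by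
    intro g a
    rcases subsingleton_or_nontrivial A with hA | hA
    · rw [Subsingleton.elim ((v g : A) * a * star (v g : A)) a]
    · calc ‖(v g : A) * a * star (v g : A)‖ ≤ ‖(v g : A)‖ * ‖a‖ * ‖star (v g : A)‖ :=
          (norm_mul_le _ _).trans (mul_le_mul_of_nonneg_right (norm_mul_le _ _) (norm_nonneg _))
        _ = ‖a‖ := by
          rw [norm_star, CStarRing.norm_of_mem_unitary (v g).2, one_mul, mul_one]
  have hconjmul : ∀ g (a b : A), ((v g : A) * a * star (v g : A)) * ((v g : A) * b * star (v g : A))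
      = (v g : A) * (a * b) * star (v g : A) := by
    intro g a b
    calc ((v g : A) * a * star (v g : A)) * ((v g : A) * b * star (v g : A))
        = (v g : A) * a * (star (v g : A) * (v g : A)) * (b * star (v g : A)) := by
          simp only [mul_assoc]
      _ = _ := by rw [hvs, mul_one]; simp only [mul_assoc]
  have hmaps : ∀ g, MapsTo (fun a => (v g : A) * a * star (v g : A)) (Bd A c) (Bd A c) := by
    rintro g a ⟨b, hab, hba, h2, h3⟩
    refine ⟨(v g : A) * b * star (v g : A), ?_, ?_, ?_, ?_⟩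
    · rw [hconjmul, hab, mul_one, hvs']
    · rw [hconjmul, hba, mul_one, hvs']
    · refine le_trans ?_ h2
      rw [← ofReal_norm, ← ofReal_norm]
      exact ENNReal.ofReal_le_ofReal (hnv g a)
    · refine le_trans ?_ h3
      rw [← ofReal_norm, ← ofReal_norm]
      exact ENNReal.ofReal_le_ofReal (hnv g b)
  have hone : (1 : A) ∈ Bd A c := by
    have h2 : ‖(1 : A)‖ ≤ max ‖(0 : A)‖ 1 := by
      rcases subsingleton_or_nontrivial A with hA | hA
      · rw [Subsingleton.elim (1 : A) 0]
        exact le_max_left _ _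
      · rw [CStarRing.norm_one]
        exact le_max_right _ _
    have h3 := enorm_le_of hc h2 (by rw [enorm_zero]; exact bot_le)
    exact ⟨1, one_mul 1, one_mul 1, h3, h3⟩
  refine ⟨hmaps, 1, hone, fun g => by
      show (v g : A) * 1 * star (v g : A) = 1
      rw [mul_one, hvs'], fun t a => path t a * star (pol a) *
    (h' (t, P a) : A), ?_, ?_, ?_, ?_, ?_, ?_⟩
  · -- continuity
    have hpol : ContinuousOn (fun p : ℝ × A => pol p.2) (Icc 0 1 ×ˢ Bd A c) :=
      pol_continuousOn.comp continuousOn_snd fun p hp => hunit _ hp.2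
    have hP : ContinuousOn (fun p : ℝ × A => P p.2) (Icc 0 1 ×ˢ Bd A c) :=
      P_cont.comp continuousOn_snd fun p hp => hunit _ hp.2
    have h2 : ContinuousOn (fun p : ℝ × A => path p.1 p.2) (Icc 0 1 ×ˢ Bd A c) := by
      unfold path
      exact ((continuousOn_const.sub continuousOn_fst).smul continuousOn_snd).add
        (continuousOn_fst.smul hpol)
    have h3 : ContinuousOn (fun p : ℝ × A => (h' (p.1, P p.2) : A)) (Icc 0 1 ×ˢ Bd A c) :=
      (continuous_subtype_val.comp h'cont).comp_continuousOn (continuousOn_fst.prodMk hP)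
    exact (h2.mul hpol.star).mul h3
  · rintro t ht a ⟨b, hab, hba, h2, h3⟩
    have ha : IsUnit a := isUnit_iff_exists.2 ⟨b, hab, hba⟩
    obtain ⟨T, hT1, hT2, hT3, hT4⟩ := path_inv hab hba ht
    have hw : star (pol a) * (h' (t, P a) : A) ∈ unitary A :=
      mul_mem (Unitary.star_mem (pol_mem ha)) (h' (t, P a)).2
    set w := star (pol a) * (h' (t, P a) : A) with hwdef
    have hwn : ‖w‖ ≤ 1 := by
      rcases subsingleton_or_nontrivial A with hA | hA
      · rw [Subsingleton.elim w 0, norm_zero]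
        exact zero_le_one
      · exact (CStarRing.norm_of_mem_unitary hw).le
    show path t a * star (pol a) * (h' (t, P a) : A) ∈ Bd A c
    rw [mul_assoc, ← hwdef]
    refine ⟨star w * T, ?_, ?_, ?_, ?_⟩
    · calc path t a * w * (star w * T) = path t a * (w * star w) * T := by
            simp only [mul_assoc]
        _ = 1 := by rw [Unitary.mul_star_self_of_mem hw, mul_one, hT1]
    · calc star w * T * (path t a * w) = star w * (T * path t a) * w := by
            simp only [mul_assoc]
        _ = 1 := by rw [hT2, mul_one, Unitary.star_mul_self_of_mem hw]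
    · apply enorm_le_of hc _ h2
      calc ‖path t a * w‖ ≤ ‖path t a‖ * ‖w‖ := norm_mul_le _ _
        _ ≤ ‖path t a‖ * 1 := mul_le_mul_of_nonneg_left hwn (norm_nonneg _)
        _ ≤ max ‖a‖ 1 := by rw [mul_one]; exact hT3
    · apply enorm_le_of hc _ h3
      calc ‖star w * T‖ ≤ ‖star w‖ * ‖T‖ := norm_mul_le _ _
        _ ≤ 1 * ‖T‖ := mul_le_mul_of_nonneg_right (by rw [norm_star]; exact hwn) (norm_nonneg _)
        _ ≤ max ‖b‖ 1 := by rw [one_mul]; exact hT4
  · intro a ha
    have hu := hunit a ha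
    show path 0 a * star (pol a) * (h' (0, P a) : A) = a
    rw [h'0, P_coe hu, mul_assoc, Unitary.star_mul_self_of_mem (pol_mem hu), mul_one]
    unfold path
    rw [sub_zero, one_smul, zero_smul, add_zero]
  · intro a ha
    have hu := hunit a ha
    show path 1 a * star (pol a) * (h' (1, P a) : A) = 1
    rw [h'1]
    unfold path
    rw [sub_self, zero_smul, one_smul, zero_add, Unitary.mul_star_self_of_mem (pol_mem hu),
      one_mul]
    rfl
  · intro t ht
    have hp1 : pol (1 : A) = 1 := pol_unitary (1 : unitary A)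
    have hP1 : (P (1 : A) : unitary A) = 1 := Subtype.ext (by rw [P_coe isUnit_one, hp1]; rfl)
    show path t 1 * star (pol 1) * (h' (t, P 1) : A) = 1
    rw [hP1, h'one, hp1, star_one, mul_one]
    unfold path
    rw [hp1, ← add_smul, sub_add_cancel, one_smul, one_mul]
    rfl
  · intro t ht a ha g
    have hu := hunit a ha
    have hu' := hunit _ (hmaps g ha)
    have hpc := pol_conj (v g) hu
    have hPc : (P ((v g : A) * a * star (v g : A)) : unitary A) = v g * P a * (v g)⁻¹ :=
      Subtype.ext (by rw [P_coe hu', hpc]; rw [← P_coe hu]; rfl)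
    have hpath : path t ((v g : A) * a * star (v g : A)) =
        (v g : A) * path t a * star (v g : A) := by
      unfold path
      rw [hpc, mul_add, add_mul, mul_smul_comm, mul_smul_comm, smul_mul_assoc, smul_mul_assoc]
    show path t ((v g : A) * a * star (v g : A)) * star (pol ((v g : A) * a * star (v g : A))) *
      (h' (t, P ((v g : A) * a * star (v g : A))) : A) =
      (v g : A) * (path t a * star (pol a) * (h' (t, P a) : A)) * star (v g : A)
    have hstar : star ((v g : A) * pol a * star (v g : A)) =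
        (v g : A) * star (pol a) * star (v g : A) := by
      rw [star_mul, star_mul, star_star, mul_assoc]
    have hval : ((v g * h' (t, P a) * (v g)⁻¹ : unitary A) : A) =
        (v g : A) * (h' (t, P a) : A) * star (v g : A) := rfl
    rw [hpath, hpc, hPc, h'e, hval, hstar, hconjmul, hconjmul]

end Main

end

end Pool.Agent.Y495.KP
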